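import Pool.Agent.helper68.QZ.Spec
import Pool.Agent.helper13.LD.E2
import Pool.Agent.helper85.LD.G1

/-!
# Row AC of project qz: Taylor coefficients of `ζ'/ζ` in a zero free region
-/

set_option autoImplicit false

namespace Pool.Agent.QZ

open N1f72dd46 Filter MeasureTheory Complex Metric Pool.Agent.helper6.LD
open scoped ComplexConjugate

theorem AC : AC_stmt := by
  intro θ ε Lam hθ hθ1 hZ hε hε1 hLam
  obtain ⟨T1, hT1⟩ := hZ ε hε
  obtain ⟨C1, hC1, hgr⟩ := zeta_growth
  set K : ℝ := 1 + |Real.log (16 * C1)| with hK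
  have hK0 : 0 < K := by positivity
  refine ⟨12 * K, max (T1 + Lam) (Lam + 3), by positivity, ?_⟩
  intro k σ t hσ hσL ht
  have ht1 : T1 + Lam ≤ t := (le_max_left _ _).trans ht
  have ht2 : Lam + 3 ≤ t := (le_max_right _ _).trans ht
  have ht0 : 0 < t := by linarith
  set R : ℝ := σ - θ - ε with hR
  have hR1 : 1 / 2 ≤ R := by rw [hR]; linarith
  have hR0 : 0 < R := by linarith
  set c : ℂ := (σ : ℂ) + t * I with hc
  have hcre : c.re = σ := by simp [hc]
  have hcim : c.im = t := by simp [hc]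
  have hball : ∀ z ∈ ball c R, θ + ε < z.re ∧ z.re < 2 * Lam ∧ t - Lam < z.im ∧ z.im < t + Lam := by
    intro z hz
    rw [mem_ball_iff_norm] at hz
    have h1 := (Complex.abs_re_le_norm (z - c)).trans_lt hz
    have h2 := (Complex.abs_im_le_norm (z - c)).trans_lt hz
    rw [Complex.sub_re, hcre, abs_lt] at h1
    rw [Complex.sub_im, hcim, abs_lt] at h2
    refine ⟨by linarith, by linarith, by linarith, by linarith⟩
  have hL1 : 1 ≤ Real.log t := by
    rw [Real.le_log_iff_exp_le ht0]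
    have := Real.exp_one_lt_d9
    linarith
  set B : ℝ := K * Real.log t with hB
  have hB0 : 0 < B := by positivity
  have hne : ∀ z ∈ ball c R, z ≠ 1 := by
    intro z hz h
    have h1 := (hball z hz).2.2.1
    rw [h, Complex.one_im] at h1
    linarith
  have hg : AnalyticOnNhd ℂ riemannZeta (ball c R) := by
    have hU : IsOpen ({1}ᶜ : Set ℂ) := isOpen_compl_singleton
    have hd : DifferentiableOn ℂ riemannZeta ({1}ᶜ : Set ℂ) := fun s hs =>
      (differentiableAt_riemannZeta hs).differentiableWithinAt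
    exact (hd.analyticOnNhd hU).mono fun s hs h1 => hne s hs h1
  have h0 : ∀ z ∈ ball c R, riemannZeta z ≠ 0 := by
    intro z hz h
    obtain ⟨h1, _, h2, _⟩ := hball z hz
    have := hT1 z h (by linarith)
    linarith
  have hfc : 1 / 4 ≤ ‖riemannZeta c‖ := zeta_lower (by rw [hcre]; exact hσ)
  have hBexp : 16 * C1 * t ≤ Real.exp B := by
    rw [← Real.log_le_iff_le_exp (by positivity), Real.log_mul (by positivity) ht0.ne', hB, hK,
      add_mul, one_mul]
    have h2 := le_abs_self (Real.log (16 * C1))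
    have h3 : |Real.log (16 * C1)| * 1 ≤ |Real.log (16 * C1)| * Real.log t :=
      mul_le_mul_of_nonneg_left hL1 (abs_nonneg _)
    linarith
  have hb : ∀ z ∈ ball c R, ‖riemannZeta z‖ ≤ Real.exp B * ‖riemannZeta c‖ := by
    intro z hz
    obtain ⟨h1, h2, h3, h4⟩ := hball z hz
    have h5 := hgr z (by linarith) (by rw [abs_of_nonneg (by linarith)]; linarith)
    have h6 : ‖z‖ ≤ 4 * t := by
      refine (Complex.norm_le_abs_re_add_abs_im z).trans ?_
      rw [abs_of_nonneg (by linarith : (0 : ℝ) ≤ z.re), abs_of_nonneg (by linarith : (0 : ℝ) ≤ z.im)]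
      linarith
    calc ‖riemannZeta z‖ ≤ C1 * ‖z‖ := h5
      _ ≤ C1 * (4 * t) := by gcongr
      _ = (16 * C1 * t) * (1 / 4) := by ring
      _ ≤ Real.exp B * ‖riemannZeta c‖ := by gcongr
  have hco := coeff_bound hR0 hB0 hg h0 hb (k := k + 1) (by omega)
  rw [Nat.add_sub_cancel] at hco
  have h7 : ((R ^ (k + 1))⁻¹ : ℝ) ≤ 2 * (R ^ k)⁻¹ := by
    rw [pow_succ, mul_inv, mul_comm]
    apply mul_le_mul_of_nonneg_right _ (by positivity)
    rw [inv_le_comm₀ hR0 (by norm_num)]
    linarith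
  calc ‖ak k c‖ ≤ 6 * B * ((k + 1 : ℕ) : ℝ) ^ 2 * (R ^ (k + 1))⁻¹ := hco
    _ ≤ 6 * B * ((k + 1 : ℕ) : ℝ) ^ 2 * (2 * (R ^ k)⁻¹) := by gcongr
    _ = 12 * K * Real.log t * (k + 1) ^ 2 * (R ^ k)⁻¹ := by
        rw [hB]
        push_cast
        ring

end Pool.Agent.QZ
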