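import Pool.Agent.helper68.QZ.Spec

/-!
# Row PR of project qz: `ζ'/ζ` minus the Taylor polynomial, to the right of `θ`
-/

set_option autoImplicit false

namespace Pool.Agent.QZ

open N1f72dd46 Filter MeasureTheory Complex Metric Pool.Agent.helper6.LD
open scoped ComplexConjugate

theorem PR_large (K ε : ℝ) (hε : 0 < ε) : ∀ᶠ T : ℝ in atTop, K * Real.log T + 1 ≤ 1 / 2 * T ^ ε := by
  have h1 : (fun T : ℝ => K * Real.log T + 1) =o[atTop] fun T : ℝ => T ^ ε := by
    refine ((isLittleO_log_rpow_atTop hε).const_mul_left K).add ?_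
    exact Asymptotics.isLittleO_const_left.2 (Or.inr (tendsto_norm_atTop_atTop.comp (tendsto_rpow_atTop hε)))
  have h2 := h1.def (by norm_num : (0 : ℝ) < 1 / 2)
  filter_upwards [h2, eventually_ge_atTop 1] with T h3 h4
  have h5 : 0 ≤ T ^ ε := Real.rpow_nonneg (by linarith) ε
  rw [Real.norm_of_nonneg h5] at h3
  exact (le_abs_self _).trans h3

theorem PR (hAC : AC_stmt) (hTY : TY_stmt) (hTS : TS_stmt) : PR_stmt := by
  intro θ α β η v ε hθ hθ1 hZ hα hαβ hη hW hv hv1 hvη hε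
  have hβ : 0 < β := hα.trans hαβ
  set ε1 : ℝ := min (min (v / 2) (ε / (4 * β))) (1 / 4) with hε1
  have hε10 : 0 < ε1 := lt_min (lt_min (by linarith) (by positivity)) (by norm_num)
  have hε1v : ε1 ≤ v / 2 := (min_le_left _ _).trans (min_le_left _ _)
  have hε1β : β * ε1 ≤ ε / 4 := by
    have h1 : ε1 ≤ ε / (4 * β) := (min_le_left _ _).trans (min_le_right _ _)
    rw [le_div_iff₀ (by positivity)] at h1
    linarith
  have hε14 : ε1 ≤ 1 / 4 := min_le_right _ _
  set z : ℝ := v - ε1 with hz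
  have hz0 : 0 < z := by linarith
  obtain ⟨lam1, hlam1, hts⟩ := hTS β z (ε / 4) hβ hz0 (by linarith) (by linarith)
  obtain ⟨lam2, hwin⟩ := hW
  refine ⟨max lam1 lam2, ?_⟩
  intro lam hlam
  have hl1 : lam1 ≤ lam := (le_max_left _ _).trans hlam
  have hl2 : lam2 ≤ lam := (le_max_right _ _).trans hlam
  have hlam2 : 2 ≤ lam := hlam1.trans hl1
  have hlam0 : 0 < lam := by linarith
  obtain ⟨C, T1, hC, hac⟩ := hAC θ ε1 (lam + 2) hθ hθ1 hZ hε10 hε14 (by linarith)
  obtain ⟨T2, hty⟩ := hTY θ v lam hθ hθ1 hZ hv (by linarith) hlam2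
  obtain ⟨T3, hwn⟩ := hwin lam hl2
  obtain ⟨T4, hts4⟩ := hts lam C hl1 hC
  have hev : ∀ᶠ T : ℝ in atTop, lam * β * Real.log T + 1 ≤ 1 / 2 * T ^ ε := PR_large _ _ hε
  have hev2 : ∀ᶠ T : ℝ in atTop, 2 ≤ T ^ (ε / 2) :=
    (tendsto_rpow_atTop (by linarith : 0 < ε / 2)).eventually_ge_atTop 2
  obtain ⟨T5, hT5⟩ := eventually_atTop.1 (hev.and hev2)
  refine ⟨max (max (2 * T1) (2 * T2)) (max (max T3 T4) (max T5 2)), ?_⟩
  intro T t hT ht1 ht2
  have hTT1 : 2 * T1 ≤ T := ((le_max_left _ _).trans (le_max_left _ _)).trans hT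
  have hTT2 : 2 * T2 ≤ T := ((le_max_right _ _).trans (le_max_left _ _)).trans hT
  have hTT3 : T3 ≤ T := (((le_max_left _ _).trans (le_max_left _ _)).trans (le_max_right _ _)).trans hT
  have hTT4 : T4 ≤ T := (((le_max_right _ _).trans (le_max_left _ _)).trans (le_max_right _ _)).trans hT
  have hTT5 : T5 ≤ T := (((le_max_left _ _).trans (le_max_right _ _)).trans (le_max_right _ _)).trans hT
  have hTT6 : 2 ≤ T := (((le_max_right _ _).trans (le_max_right _ _)).trans (le_max_right _ _)).trans hT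
  have hT0 : 0 < T := by linarith
  obtain ⟨hc1, hc2⟩ := hT5 T hTT5
  have hL : 0 < Real.log T := Real.log_pos (by linarith)
  have hlog : Real.log t ≤ Real.log (2 * T) := Real.log_le_log (by linarith) ht2
  have hlogt : 0 ≤ Real.log t := Real.log_nonneg (by linarith)
  set f : ℕ → ℂ := fun k => ak k ((((θ + v : ℝ) : ℂ) + t * I) + lam) * (-(lam : ℂ)) ^ k with hf
  have hsum : HasSum f (logDeriv riemannZeta (((θ + v : ℝ) : ℂ) + t * I)) :=
    hty (θ + v) t le_rfl (by linarith) (by linarith)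
  have hpt : ((((θ + v : ℝ) : ℂ) + t * I) + lam) = ((θ + v + lam : ℝ) : ℂ) + t * I := by
    push_cast
    ring
  have hfn : ∀ k, ‖f k‖ = lam ^ k * ‖ak k (((θ + v + lam : ℝ) : ℂ) + t * I)‖ := by
    intro k
    rw [hf]
    simp only
    rw [norm_mul, norm_pow, norm_neg, Complex.norm_real, Real.norm_of_nonneg hlam0.le, hpt, mul_comm]
  set K1 : ℕ := ⌊lam * α * Real.log T⌋₊ + 1 with hK1
  set N : ℕ := ⌊lam * β * Real.log T⌋₊ + 1 with hN
  have hKN : K1 ≤ N := by
    rw [hK1, hN]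
    apply Nat.succ_le_succ
    apply Nat.floor_le_floor
    have : lam * α ≤ lam * β := mul_le_mul_of_nonneg_left hαβ.le hlam0.le
    exact mul_le_mul_of_nonneg_right this hL.le
  have hNle : lam * β * Real.log T ≤ N := by
    rw [hN]
    push_cast
    exact (Nat.lt_floor_add_one _).le
  have hN2 : (N : ℝ) ≤ lam * β * Real.log T + 1 := by
    rw [hN]
    push_cast
    have := Nat.floor_le (by positivity : 0 ≤ lam * β * Real.log T)
    linarith
  -- the decomposition
  have hdec : logDeriv riemannZeta (((θ + v : ℝ) : ℂ) + t * I) -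
      Pt lam α T (((θ + v : ℝ) : ℂ) + t * I) = ∑ k ∈ Finset.Ico K1 N, f k + ∑' k : ℕ, f (k + N) := by
    have h1 : Pt lam α T (((θ + v : ℝ) : ℂ) + t * I) = ∑ k ∈ Finset.range K1, f k := rfl
    have h2 := hsum.summable.sum_add_tsum_nat_add N
    rw [hsum.tsum_eq] at h2
    rw [h1, Finset.sum_Ico_eq_sub _ hKN, ← h2]
    ring
  -- the window
  have hwindow : ‖∑ k ∈ Finset.Ico K1 N, f k‖ ≤ 1 / 2 * T ^ (-(β * v) + ε) := by
    have h1 : ∀ k ∈ Finset.Ico K1 N, ‖f k‖ ≤ T ^ (-(α * v) - η) := by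
      intro k hk
      rw [Finset.mem_Ico] at hk
      rw [hfn]
      refine hwn T t v hTT3 ht1 ht2 hv.le hv1 k ?_ ?_
      · have h2 : lam * α * Real.log T < (⌊lam * α * Real.log T⌋₊ : ℝ) + 1 := Nat.lt_floor_add_one _
        have h3 : ((K1 : ℕ) : ℝ) ≤ k := by exact_mod_cast hk.1
        rw [hK1] at h3
        push_cast at h3
        linarith
      · have h2 : k ≤ ⌊lam * β * Real.log T⌋₊ := by
          have := hk.2
          omega
        have h3 : (k : ℝ) ≤ (⌊lam * β * Real.log T⌋₊ : ℝ) := by exact_mod_cast h2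
        exact h3.trans (Nat.floor_le (by positivity))
    refine (norm_sum_le _ _).trans ?_
    refine (Finset.sum_le_sum h1).trans ?_
    rw [Finset.sum_const, Nat.card_Ico, nsmul_eq_mul]
    have h2 : ((N - K1 : ℕ) : ℝ) ≤ lam * β * Real.log T + 1 := by
      refine le_trans ?_ hN2
      exact_mod_cast Nat.sub_le N K1
    have h3 : T ^ (-(α * v) - η) ≤ T ^ (-(β * v)) := by
      apply Real.rpow_le_rpow_of_exponent_le (by linarith)
      linarith
    calc ((N - K1 : ℕ) : ℝ) * T ^ (-(α * v) - η)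
        ≤ (1 / 2 * T ^ ε) * T ^ (-(β * v)) :=
          mul_le_mul (h2.trans hc1) h3 (Real.rpow_nonneg hT0.le _)
            (by have := Real.rpow_nonneg hT0.le ε; linarith)
      _ = 1 / 2 * T ^ (-(β * v) + ε) := by
          rw [Real.rpow_add hT0]
          ring
  -- the tail
  have htail : ‖∑' k : ℕ, f (k + N)‖ ≤ 1 / 2 * T ^ (-(β * v) + ε) := by
    obtain ⟨hs1, hs2⟩ := hts4 T hTT4 N hNle
    have h1 : ∀ k : ℕ, ‖f (k + N)‖ ≤ C * Real.log (2 * T) * ((k + N : ℕ) + 1 : ℝ) ^ 2 *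
        (lam / (lam + z)) ^ (k + N) := by
      intro k
      rw [hfn]
      have h2 := hac (k + N) (θ + v + lam) t (by linarith) (by linarith) (by linarith)
      have h3 : θ + v + lam - θ - ε1 = lam + z := by rw [hz]; ring
      rw [h3] at h2
      calc lam ^ (k + N) * ‖ak (k + N) (((θ + v + lam : ℝ) : ℂ) + t * I)‖
          ≤ lam ^ (k + N) * (C * Real.log t * (((k + N : ℕ) : ℝ) + 1) ^ 2 * ((lam + z) ^ (k + N))⁻¹) :=
            mul_le_mul_of_nonneg_left h2 (pow_nonneg hlam0.le _)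
        _ = C * Real.log t * (((k + N : ℕ) : ℝ) + 1) ^ 2 * (lam / (lam + z)) ^ (k + N) := by
            rw [div_pow]
            ring
        _ ≤ C * Real.log (2 * T) * ((k + N : ℕ) + 1 : ℝ) ^ 2 * (lam / (lam + z)) ^ (k + N) := by
            have h4 : 0 ≤ (lam / (lam + z)) ^ (k + N) := by positivity
            gcongr
    have h2 : ‖∑' k : ℕ, f (k + N)‖ ≤ ∑' k : ℕ, C * Real.log (2 * T) * ((k + N : ℕ) + 1 : ℝ) ^ 2 *
        (lam / (lam + z)) ^ (k + N) := tsum_of_norm_bounded hs1.hasSum h1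
    refine (h2.trans hs2).trans ?_
    have h3 : T ^ (-(β * z) + ε / 4) ≤ T ^ (-(β * v) + ε / 2) := by
      apply Real.rpow_le_rpow_of_exponent_le (by linarith)
      rw [hz]
      linarith
    refine h3.trans ?_
    have h4 : T ^ (-(β * v) + ε) = T ^ (ε / 2) * T ^ (-(β * v) + ε / 2) := by
      rw [← Real.rpow_add hT0]
      congr 1
      ring
    rw [h4]
    have h5 : 0 ≤ T ^ (-(β * v) + ε / 2) := Real.rpow_nonneg hT0.le _
    nlinarith
  rw [hdec]
  refine (norm_add_le _ _).trans ?_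
  linarith

end Pool.Agent.QZ
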