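import Pool.Agent.helper68.QZ.Spec

/-!
# Row WN of project qz: from the window lemma to `Win`
-/

set_option autoImplicit false

namespace Pool.Agent.QZ

open N1f72dd46 Filter MeasureTheory Complex Metric Pool.Agent.helper6.LD
open scoped ComplexConjugate

theorem WN_log {x : ℝ} (hx : |x| ≤ 1 / 2) : -Real.log (1 - x) ≤ x + 2 * x ^ 2 := by
  have h1 := Real.abs_log_sub_add_sum_range_le (x := x) (by linarith) 1
  simp only [Finset.range_one, Finset.sum_singleton, zero_add, pow_one, Nat.cast_zero,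
    div_one] at h1
  have h2 : |x| ^ (1 + 1) / (1 - |x|) ≤ 2 * x ^ 2 := by
    rw [div_le_iff₀ (by linarith)]
    have h3 : |x| ^ (1 + 1) = x ^ 2 := by rw [← sq_abs x]
    rw [h3]
    nlinarith [sq_nonneg x]
  have h3 := (abs_le.1 (h1.trans h2)).1
  linarith

theorem WN_pow {lam z : ℝ} (hlam : 8 ≤ lam) (hz : |z| ≤ 2) (k : ℕ) :
    lam ^ k * ((lam - z) ^ k)⁻¹ ≤ Real.exp (k / lam * z + 8 * (k / lam) / lam) := by
  have h0 : 0 < lam := by linarith
  have hz1 := abs_le.1 hz
  have hx : |z / lam| ≤ 1 / 2 := by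
    rw [abs_div, abs_of_pos h0, div_le_iff₀ h0]
    linarith
  have h1 : 0 < 1 - z / lam := by
    have := (abs_le.1 hx).2
    linarith
  have h2 : lam ^ k * ((lam - z) ^ k)⁻¹ = ((1 - z / lam) ^ k)⁻¹ := by
    have h3 : lam - z = lam * (1 - z / lam) := by field_simp
    rw [h3, mul_pow, mul_inv, ← mul_assoc, mul_inv_cancel₀ (pow_pos h0 k).ne', one_mul]
  rw [h2, ← Real.exp_log h1, ← Real.exp_nat_mul, ← Real.exp_neg, Real.exp_le_exp]
  have h3 := WN_log hx
  have h4 : (z / lam) ^ 2 ≤ 4 / lam ^ 2 := by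
    rw [div_pow]
    gcongr
    nlinarith [sq_nonneg z]
  have h5 : -(k * Real.log (1 - z / lam)) ≤ k * (z / lam + 2 * (4 / lam ^ 2)) := by
    have h6 : (0 : ℝ) ≤ k := Nat.cast_nonneg k
    nlinarith
  refine h5.trans (le_of_eq ?_)
  field_simp
  ring

theorem WN_pi {T t : ℝ} (hT : 0 < T) (ht : T / 2 ≤ t) : 2 * Real.pi / t ≤ 14 / T := by
  rw [div_le_div_iff₀ (by linarith) hT]
  have h1 := Real.pi_lt_d2
  have h2 : 2 * Real.pi * T ≤ 2 * 3.15 * T := by gcongr
  linarith

theorem WN : WN_stmt := by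
  intro ω θ α β h0 h1 hθ hθ1 hα hαβ hA hB hW
  -- the parameters
  set η0 : ℝ := min (min ((α * (2 * θ - 1 - ω) - 1) / 2) (1 - β * (1 - θ))) (α * (θ - 1 / 2)) with hη0
  have hη : 0 < η0 := by
    refine lt_min (lt_min ?_ ?_) ?_
    · linarith
    · linarith
    · exact mul_pos hα (by linarith)
  have hη1 : η0 ≤ (α * (2 * θ - 1 - ω) - 1) / 2 := (min_le_left _ _).trans (min_le_left _ _)
  have hη2 : η0 ≤ 1 - β * (1 - θ) := (min_le_left _ _).trans (min_le_right _ _)
  have hη3 : η0 ≤ α * (θ - 1 / 2) := min_le_right _ _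
  have hβ : 0 < β := hα.trans hαβ
  have hp : 0 < 2 * θ - 1 - ω := by
    by_contra h
    have : α * (2 * θ - 1 - ω) ≤ 0 := mul_nonpos_of_nonneg_of_nonpos hα.le (not_lt.1 h)
    linarith
  set τ0 : ℝ := min 1 ((α * (1 - ω) - 1) / 2) with hτ0
  have hτ0p : 0 < τ0 := by
    refine lt_min one_pos ?_
    have : α * (2 * θ - 1 - ω) < α * (1 - ω) := by
      apply mul_lt_mul_of_pos_left _ hα
      linarith
    linarith
  refine ⟨η0 / 2, by linarith, max 8 (64 * β / η0), ?_⟩
  intro lam hlam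
  have hlam8 : 8 ≤ lam := (le_max_left _ _).trans hlam
  have hlamE : 8 * β / lam ≤ η0 / 8 := by
    have h2 := (le_max_right _ _).trans hlam
    rw [div_le_iff₀ hη] at h2
    rw [div_le_iff₀ (by linarith)]
    linarith
  set δ : ℝ := min (1 / 4) (η0 / (8 * β)) with hδ
  have hδ0 : 0 < δ := lt_min (by norm_num) (by positivity)
  have hδ1 : δ ≤ 1 / 4 := min_le_left _ _
  have hδ2 : β * δ ≤ η0 / 8 := by
    have : δ ≤ η0 / (8 * β) := min_le_right _ _
    rw [le_div_iff₀ (by positivity)] at this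
    linarith
  obtain ⟨C, hC, hbd⟩ := hW δ (θ + 1 / 10 + lam) hδ0 hδ1 (by linarith)
  set L0 : ℝ := max 1 (max (Real.log 56 / τ0) (4 * Real.log (16 * C) / η0)) with hL0
  refine ⟨Real.exp L0, ?_⟩
  intro T t v hT ht1 ht2 hv0 hv1 k hk1 hk2
  have hTpos : 0 < T := (Real.exp_pos _).trans_le hT
  set L : ℝ := Real.log T with hL
  have hLL : L0 ≤ L := by
    rw [hL, Real.le_log_iff_exp_le hTpos]
    exact hT
  have hL1 : 1 ≤ L := (le_max_left _ _).trans hLL
  have hL2 : Real.log 56 / τ0 ≤ L := ((le_max_left _ _).trans (le_max_right _ _)).trans hLL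
  have hL3 : 4 * Real.log (16 * C) / η0 ≤ L := ((le_max_right _ _).trans (le_max_right _ _)).trans hLL
  have hexpT : Real.exp L = T := Real.exp_log hTpos
  have hlam0 : 0 < lam := by linarith
  set a : ℝ := k / (lam * L) with ha
  have hlL : 0 < lam * L := by positivity
  have haL : (k : ℝ) / lam = a * L := by
    rw [ha]
    field_simp
  have ha1 : α ≤ a := by
    rw [ha, le_div_iff₀ hlL]
    linarith
  have ha2 : a ≤ β := by
    rw [ha, div_le_iff₀ hlL]
    linarith
  have ha0 : 0 < a := hα.trans_le ha1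
  set τ : ℝ := min 1 ((a * (1 - ω) - 1) / 2) with hτ
  have hτ1 : τ ≤ 1 := min_le_left _ _
  have hττ : τ0 ≤ τ := by
    rw [hτ0, hτ]
    refine min_le_min le_rfl ?_
    have : α * (1 - ω) ≤ a * (1 - ω) := by
      apply mul_le_mul_of_nonneg_right ha1
      linarith
    linarith
  have hαa : α * (2 * θ - 1 - ω) ≤ a * (2 * θ - 1 - ω) := mul_le_mul_of_nonneg_right ha1 hp.le
  have haβ : a * (1 - θ) ≤ β * (1 - θ) := mul_le_mul_of_nonneg_right ha2 (by linarith)
  have hE1 : η0 ≤ τ - a * (1 - θ) := by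
    rcases min_choice 1 ((a * (1 - ω) - 1) / 2) with h | h
    · rw [hτ, h]
      linarith
    · rw [hτ, h]
      linarith
  have hE2 : η0 ≤ a * (θ - ω) - 1 - τ := by
    rcases le_total 1 ((a * (1 - ω) - 1) / 2) with h | h
    · rw [hτ, min_eq_left h]
      linarith
    · rw [hτ, min_eq_right h]
      linarith
  have hE3 : η0 ≤ a * (θ - 1 / 2) := by
    have : α * (θ - 1 / 2) ≤ a * (θ - 1 / 2) := mul_le_mul_of_nonneg_right ha1 (by linarith)
    linarith
  -- the choice of `s`
  set s : ℝ := 14 * Real.exp (-(L * τ)) with hs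
  have hspos : 0 < s := by positivity
  have ht0 : 1 ≤ t := by
    have h2 : Real.exp 1 ≤ T := by
      rw [← hexpT]
      exact Real.exp_le_exp.2 hL1
    have h3 := Real.add_one_le_exp (1 : ℝ)
    linarith
  have htpos : 0 < t := by linarith
  have hs1 : 2 * Real.pi / t ≤ s := by
    have h2 : 2 * Real.pi / t ≤ 14 / T := by
      exact WN_pi hTpos ht1
    have h3 : 14 / T = 14 * Real.exp (-L) := by
      rw [Real.exp_neg, hexpT]
      ring
    rw [h3] at h2
    refine h2.trans ?_
    rw [hs]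
    have h4 : Real.exp (-L) ≤ Real.exp (-(L * τ)) := by
      apply Real.exp_le_exp.2
      have := mul_le_mul_of_nonneg_left hτ1 (by linarith : (0 : ℝ) ≤ L)
      linarith
    linarith
  have hs2 : s ≤ 1 / 4 := by
    have h2 : Real.log 56 ≤ L * τ := by
      rw [div_le_iff₀ hτ0p] at hL2
      exact hL2.trans (mul_le_mul_of_nonneg_left hττ (by linarith))
    have h3 : 56 ≤ Real.exp (L * τ) := by
      rw [← Real.log_le_iff_le_exp (by norm_num)]
      exact h2
    rw [hs, Real.exp_neg]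
    have h4 : (Real.exp (L * τ))⁻¹ ≤ 1 / 56 := by
      rw [one_div]
      exact inv_anti₀ (by norm_num) h3
    linarith
  have hkey := hbd k (θ + v + lam) t s (by linarith) (by linarith) ht0 hs1 hs2
  -- the three powers
  have hlamk : 0 < lam ^ k := pow_pos hlam0 k
  have hp1 := WN_pow (z := 1 + δ - θ - v) hlam8 (by rw [abs_le]; constructor <;> linarith) k
  have hp2 := WN_pow (z := -(θ + v - ω - δ)) hlam8 (by rw [abs_le]; constructor <;> linarith) k
  have hp3 := WN_pow (z := -(θ + v - 1 / 2 - δ)) hlam8 (by rw [abs_le]; constructor <;> linarith) k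
  have e1 : lam - (1 + δ - θ - v) = θ + v + lam - 1 - δ := by ring
  have e2 : lam - -(θ + v - ω - δ) = θ + v + lam - ω - δ := by ring
  have e3 : lam - -(θ + v - 1 / 2 - δ) = θ + v + lam - 1 / 2 - δ := by ring
  rw [e1, haL] at hp1
  rw [e2, haL] at hp2
  rw [e3, haL] at hp3
  have hEE : 8 * (a * L) / lam ≤ L * (η0 / 8) := by
    have h2 : 8 * (a * L) / lam ≤ L * (8 * β / lam) := by
      have h3 : 8 * (a * L) / lam = L * (8 * a / lam) := by ring
      rw [h3]
      apply mul_le_mul_of_nonneg_left _ (by linarith)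
      apply div_le_div_of_nonneg_right _ hlam0.le
      linarith
    refine h2.trans ?_
    exact mul_le_mul_of_nonneg_left hlamE (by linarith)
  have haδ : a * δ ≤ η0 / 8 := by
    have : a * δ ≤ β * δ := mul_le_mul_of_nonneg_right ha2 hδ0.le
    linarith
  set X : ℝ := Real.exp (L * (-(a * v) - 3 * η0 / 4)) with hX
  have hq1 : s * (lam ^ k * ((θ + v + lam - 1 - δ) ^ k)⁻¹) ≤ 14 * X := by
    calc s * (lam ^ k * ((θ + v + lam - 1 - δ) ^ k)⁻¹)
        ≤ s * Real.exp (a * L * (1 + δ - θ - v) + 8 * (a * L) / lam) :=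
          mul_le_mul_of_nonneg_left hp1 hspos.le
      _ = 14 * Real.exp (-(L * τ) + (a * L * (1 + δ - θ - v) + 8 * (a * L) / lam)) := by
          rw [hs, Real.exp_add (-(L * τ))]
          ring
      _ ≤ 14 * X := by
          apply mul_le_mul_of_nonneg_left _ (by norm_num)
          apply Real.exp_le_exp.2
          have h2 : L * (-τ + a * (1 + δ - θ - v) + η0 / 8) ≤ L * (-(a * v) - 3 * η0 / 4) := by
            apply mul_le_mul_of_nonneg_left _ (by linarith)
            linarith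
          linarith
  have hq2 : t / s * (lam ^ k * ((θ + v + lam - ω - δ) ^ k)⁻¹) ≤ X := by
    have h2 : t / s ≤ Real.exp (L * (1 + τ)) := by
      rw [div_le_iff₀ hspos, hs]
      have h3 : Real.exp (L * (1 + τ)) * (14 * Real.exp (-(L * τ))) = 14 * T := by
        rw [← hexpT]
        have : Real.exp L = Real.exp (L * (1 + τ)) * Real.exp (-(L * τ)) := by
          rw [← Real.exp_add]
          congr 1
          ring
        rw [this]
        ring
      rw [h3]
      linarith
    calc t / s * (lam ^ k * ((θ + v + lam - ω - δ) ^ k)⁻¹)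
        ≤ Real.exp (L * (1 + τ)) * Real.exp (a * L * -(θ + v - ω - δ) + 8 * (a * L) / lam) :=
          mul_le_mul h2 hp2 (mul_nonneg hlamk.le (inv_nonneg.2 (pow_nonneg (by linarith) k)))
            (Real.exp_pos _).le
      _ = Real.exp (L * (1 + τ) + (a * L * -(θ + v - ω - δ) + 8 * (a * L) / lam)) := by
          rw [Real.exp_add (L * (1 + τ))]
      _ ≤ X := by
          apply Real.exp_le_exp.2
          have h2 : L * (1 + τ + a * -(θ + v - ω - δ) + η0 / 8) ≤
              L * (-(a * v) - 3 * η0 / 4) := by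
            apply mul_le_mul_of_nonneg_left _ (by linarith)
            linarith
          linarith
  have hq3 : lam ^ k * ((θ + v + lam - 1 / 2 - δ) ^ k)⁻¹ ≤ X := by
    refine hp3.trans ?_
    apply Real.exp_le_exp.2
    have h2 : L * (a * -(θ + v - 1 / 2 - δ) + η0 / 8) ≤ L * (-(a * v) - 3 * η0 / 4) := by
      apply mul_le_mul_of_nonneg_left _ (by linarith)
      linarith
    linarith
  have hfin : lam ^ k * ‖ak k (((θ + v + lam : ℝ) : ℂ) + t * I)‖ ≤ 16 * C * X := by
    calc lam ^ k * ‖ak k (((θ + v + lam : ℝ) : ℂ) + t * I)‖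
        ≤ lam ^ k * (C * (s * ((θ + v + lam - 1 - δ) ^ k)⁻¹ +
            t / s * ((θ + v + lam - ω - δ) ^ k)⁻¹ + ((θ + v + lam - 1 / 2 - δ) ^ k)⁻¹)) :=
          mul_le_mul_of_nonneg_left hkey hlamk.le
      _ = C * (s * (lam ^ k * ((θ + v + lam - 1 - δ) ^ k)⁻¹) +
            t / s * (lam ^ k * ((θ + v + lam - ω - δ) ^ k)⁻¹) +
            lam ^ k * ((θ + v + lam - 1 / 2 - δ) ^ k)⁻¹) := by ring
      _ ≤ C * (14 * X + X + X) := by gcongr
      _ = 16 * C * X := by ring
  refine hfin.trans ?_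
  rw [Real.rpow_def_of_pos hTpos, ← hL]
  have h16 : 16 * C ≤ Real.exp (L * (η0 / 4)) := by
    rw [← Real.log_le_iff_le_exp (by positivity)]
    rw [div_le_iff₀ hη] at hL3
    linarith
  calc 16 * C * X ≤ Real.exp (L * (η0 / 4)) * X :=
        mul_le_mul_of_nonneg_right h16 (Real.exp_pos _).le
    _ = Real.exp (L * (η0 / 4) + L * (-(a * v) - 3 * η0 / 4)) := by rw [hX, ← Real.exp_add]
    _ ≤ Real.exp (L * (-(α * v) - η0 / 2)) := by
        apply Real.exp_le_exp.2
        have h2 : α * v ≤ a * v := mul_le_mul_of_nonneg_right ha1 hv0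
        have h3 : L * (α * v) ≤ L * (a * v) := mul_le_mul_of_nonneg_left h2 (by linarith)
        linarith

end Pool.Agent.QZ
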