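import Pool.Agent.helper68.QZ.Spec
import Pool.Agent.helper2.QZ.CM
import Pool.Agent.helper2.QZ.LG
import Pool.Agent.helper23.QZ.AK
import Pool.Agent.helper23.QZ.GA
import Pool.Agent.helper23.QZ.LD
import Pool.Agent.helper23.QZ.PC
import Pool.Agent.helper23.QZ.PL
import Pool.Agent.helper23.QZ.SI
import Pool.Agent.helper23.QZ.TB
import Pool.Agent.helper23.QZ.TH
import Pool.Agent.helper24.QZ.PH
import Pool.Agent.helper27.QZ.FN
import Pool.Agent.helper27.QZ.HS
import Pool.Agent.helper31.QZ.MR
import Pool.Agent.helper36.QZ.HP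
import Pool.Agent.helper39.QZ.WL
import Pool.Agent.helper46.QZ.TS
import Pool.Agent.helper48.QZ.TY
import Pool.Agent.helper49.QZ.PP
import Pool.Agent.helper52.QZ.LL
import Pool.Agent.helper66.QZ.WK
import Pool.Agent.helper68.QZ.AC
import Pool.Agent.helper68.QZ.PR
import Pool.Agent.helper68.QZ.WN
import Pool.Agent.helper75.QZ.EX
import Pool.Agent.helper89.QZ.LT
import Pool.Agent.helper89.QZ.MM
import Pool.Agent.helper90.QZ.LB
import Pool.Agent.helper92.QZ.PT
import Pool.Agent.helper6.EV.All
import Pool.Agent.helper8.EQ.ARG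
import Pool.Agent.helper98.WS.GAM

/-!
# Project qz: assembly
-/

set_option autoImplicit false

namespace Pool.Agent.QZ

theorem all_CM : CM_stmt := CM (Pool.Agent.EV.I2 Pool.Agent.EV.I1)
theorem all_LB : LB_stmt := LB all_CM
theorem all_WK : WK_stmt := WK PT EX
theorem all_WL : WL_stmt := WL all_LB PH all_WK PP AK
theorem all_TB : TB_stmt := TB AK
theorem all_PL : PL_stmt := PL AC
theorem all_PR : PR_stmt := PR AC TY TS
theorem all_PC : PC_stmt := PC all_TB
theorem all_LG : LG_stmt := LG LL LT GA Pool.Agent.WS.GAM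
theorem all_LD : LD_stmt := LD all_LG
theorem all_HS : HS_stmt := HS all_LG all_LD LL all_PL all_PR all_PC LT GA
theorem all_MM : MM_stmt := MM MR
theorem all_FN : FN_stmt := FN all_HS all_LG LL all_MM all_PC Pool.Agent.EQ.ARG

theorem all_MAIN : MAIN_stmt := MAIN all_WL WN all_FN TH SI HP Pool.Agent.EV.all_MAIN

end Pool.Agent.QZ
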