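import Pool.Agent.helper6.EV.Spec
import Pool.Agent.helper78.EQ.Spec
import Pool.Agent.helper41.WS.Spec

/-!
# Project qz (MP_5a4a8e_nt): the size of `H n - G n` and the zeros of the zeta function

THEOREM. Let `0 ≤ ω < 1` and `H n - G n ≤ n^(1 + ω/2 + ε)` for every `ε > 0` and all large `n`. Then for every
`σ > (ω - 3 + √(33 + 2ω + ω²))/4` there are only finitely many zeros of `ζ` with real part `≥ σ`.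
(`ω = 0`: the conjecture of Erdős; the number is `(√33 - 3)/4 = 0.686..`.) Paper proof: /team-store/MP_5a4a8e_helper68.md.

## Rules

Every statement `XX_stmt` is proved in `Pool/Agent/<seat>/QZ/XX.lean`: `import Pool.Agent.helper68.QZ.Spec`, `namespace Pool.Agent.QZ`,
the `open` line of the spec, `theorem XX (hYY : YY_stmt) ... : XX_stmt` with the hypotheses named in the docstring (Uses: ..). Auxiliary lemmas are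
prefixed `XX_`. No sorry, no double quotes, no `congr!`, no `convert`, no `native_decide`.

Library (may be imported): `Pool.Agent.helper55.EV.I2` (`I2 : I1_stmt → I2_stmt`), `Pool.Agent.helper53.EV.I1`; `Pool.Agent.helper57.LD.Z0` (namespace
`Pool.Agent.helper6.LD`: `h57_series`, `h57_deriv`, `wt_summable`); `Pool.Agent.helper98.EV.PW` (`PW_F0_summable`, `PW_le` ..); `Pool.Agent.helper13.LD.E2`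
(`coeff_bound`, `h13_exists_log`); `Pool.Agent.helper85.LD.G1` (`zeta_growth`, `zeta_lower`); `Pool.Agent.helper44.DM.ZG` (`zeta_poly`: `|ζ s| ≤ C |Im s|^3` for `Re s ≥ -1`,
`|Im s| ≥ 1`); `Pool.Agent.helper30.LD.J0` (`zeros_finite`); `Pool.Agent.helper53.EQ.LBC` (`helper53_g`, `helper53_low`, `helper53_radius`);
`Pool.Agent.helper13.EQ.TC`, `Pool.Agent.helper18.EQ.THR`, `Pool.Agent.helper8.EQ.ARG` (namespace `Pool.Agent.EQ`), `Pool.Agent.helper98.WS.GAM` (namespace `Pool.Agent.WS`).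
-/

set_option autoImplicit false

namespace Pool.Agent.QZ

open N1f72dd46 Filter MeasureTheory Complex Metric Pool.Agent.helper6.LD
open scoped ComplexConjugate

/-! ## Definitions -/

/-- `H n - G n ≤ n^(1 + ω/2 + ε)` for all large `n` and every `ε > 0` -/
def Hyp (ω : ℝ) : Prop := ∀ ε : ℝ, 0 < ε →
  ∀ᶠ n : ℕ in atTop, (H n : ℝ) - (n : ℝ) ^ (1 + ω / 2 + ε : ℝ) ≤ (G n : ℝ)

/-- test functions: values in `[0,1]`, Lipschitz with constant `g`, zero outside `(0, s)` -/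
structure Good (g s : ℝ) (φ : ℝ → ℝ) : Prop where
  nonneg : ∀ u, 0 ≤ φ u
  le_one : ∀ u, φ u ≤ 1
  lip : ∀ u v, |φ u - φ v| ≤ g * |u - v|
  neg : ∀ u, u ≤ 0 → φ u = 0
  large : ∀ u, s ≤ u → φ u = 0

/-- `∑_p log p (φ(log p - y) - φ(y - log p))` (finitely many terms are not zero) -/
noncomputable def Lq (φ : ℝ → ℝ) (y : ℝ) : ℝ :=
  ∑' p : Nat.Primes, Real.log (p : ℕ) * (φ (Real.log (p : ℕ) - y) - φ (y - Real.log (p : ℕ)))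

/-- the test function `max(0, -sin(t u))` on `[0, 2πm/t]`, zero outside -/
noncomputable def ph (t : ℝ) (m : ℕ) (u : ℝ) : ℝ :=
  if 0 ≤ u ∧ u ≤ 2 * Real.pi * m / t then max 0 (-Real.sin (t * u)) else 0

/-- the weight `y^k e^(-sy) / k!` -/
noncomputable def w (k : ℕ) (s : ℂ) (y : ℝ) : ℂ := (y : ℂ) ^ k / (k.factorial : ℂ) * Complex.exp (-s * y)

/-- `∫_0^(1/4) φ(u) (w(l - u) - w(l + u)) du` -/
noncomputable def Jk (k : ℕ) (s : ℂ) (φ : ℝ → ℝ) (l : ℝ) : ℂ :=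
  ∫ u in (0 : ℝ)..(1 / 4), (φ u : ℂ) * (w k s (l - u) - w k s (l + u))

/-- `∫_0^(1/4) φ(u) (e^(su) - e^(-su)) du` -/
noncomputable def Ph (s : ℂ) (φ : ℝ → ℝ) : ℂ :=
  ∫ u in (0 : ℝ)..(1 / 4), (φ u : ℂ) * (Complex.exp (s * u) - Complex.exp (-s * u))

/-- `∑_p log p (log p)^k / k! p^(-s)` -/
noncomputable def fp (k : ℕ) (s : ℂ) : ℂ :=
  ∑' p : Nat.Primes, (Real.log (p : ℕ) : ℂ) * ((Real.log (p : ℕ) : ℂ) ^ k / (k.factorial : ℂ)) * ((p : ℕ) : ℂ) ^ (-s)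

/-- the Taylor coefficients of `ζ'/ζ` -/
noncomputable def ak (k : ℕ) (s : ℂ) : ℂ := iteratedDeriv k (logDeriv riemannZeta) s / (k.factorial : ℂ)

/-- for every `ε > 0` all zeros of large height have real part `≤ θ + ε` -/
def ZF (θ : ℝ) : Prop := ∀ ε : ℝ, 0 < ε → ∃ T0 : ℝ, ∀ ρ : ℂ, riemannZeta ρ = 0 → T0 ≤ ρ.im → ρ.re ≤ θ + ε

/-- the Taylor coefficients with index between `α lam log T` and `β lam log T` are small -/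
def Win (θ α β η : ℝ) : Prop := ∃ lam0 : ℝ, ∀ lam : ℝ, lam0 ≤ lam → ∃ T0 : ℝ, ∀ T t v : ℝ, T0 ≤ T →
  T / 2 ≤ t → t ≤ 2 * T → 0 ≤ v → v ≤ 1 / 10 → ∀ k : ℕ, lam * α * Real.log T ≤ k →
  (k : ℝ) ≤ lam * β * Real.log T → lam ^ k * ‖ak k (((θ + v + lam : ℝ) : ℂ) + t * I)‖ ≤ T ^ (-(α * v) - η)

/-- the Taylor polynomial of `ζ'/ζ` about `s + lam`, at `s`, up to the index `α lam log T` -/
noncomputable def Pt (lam α T : ℝ) (s : ℂ) : ℂ :=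
  ∑ k ∈ Finset.range (⌊lam * α * Real.log T⌋₊ + 1), ak k (s + lam) * (-(lam : ℂ)) ^ k

/-- `ζ' - Pt ζ` -/
noncomputable def hh (lam α T : ℝ) (s : ℂ) : ℂ := deriv riemannZeta s - Pt lam α T s * riemannZeta s

/-! ## Part 1: from the loss `H - G` to the Taylor coefficients of `ζ'/ζ` -/

/-- CM (medium). Combinatorial inequality. Let `a` be the function of `EV.I2_stmt` for `n` (`Nat.sqrt n = ⌊x⌋₊`), `r = ⌊x⌋₊`: `∑_{p ≤ r} (n - a p) ≤ H - G + n + 1`, all terms `≥ 0`. Put `s_p = log x - log p`.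
CLAIM: for every prime `p ≤ r` there is `b p` with `φ(s_p) ≤ 2 g (n - a p)/n + b p`, where `b p = φ(log q - log x)` for a prime `q = a p / p` with `x < q ≤ n`, or `b p = 0`. Proof: let `φ(s_p) > 0`, so `0 < s_p < 1/4`, `p > x e^(-1/4)`. If `a p = 0`: clear
(`φ ≤ 1 ≤ g`). Otherwise `a p = p m` and all prime factors of `m` are `≥ p` (`minFac (a p) = p`). `m = 1`: `n - a p ≥ n - x ≥ n/2`. If `m` were composite: `m ≥ p²`, `n ≥ p³ ≥ x³ e^(-3/4) > x²`. So `m = q` is a prime. If `q ≤ x` (so `q ≥ p`): `1 - pq/n = 1 - e^(-w)`, `w = s_p + s_q ∈ [s_p, 1/2]`,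
and `1 - e^(-w) ≥ w/2 ≥ s_p/2`, `φ(s_p) = φ(s_p) - φ(0) ≤ g s_p`. If `q > x`: `v = log q - log x ≤ s_p` (`pq ≤ n = x²`), `φ(s_p) - φ(v) ≤ g (s_p - v)` and `1 - pq/n ≥ (s_p - v)/2` in the same way. Different `p` give different `q` (coprimality of `a p`, `a p'`), `φ ≥ 0`. Sum over `p`.
Uses: (EV.I1, EV.I2 may be imported; or take `hI2 : Pool.Agent.EV.I2_stmt` as hypothesis). -/
def CM_stmt : Prop := ∀ (n : ℕ) (x g : ℝ) (φ : ℝ → ℝ), 0 ≤ x → x ^ 2 = n → Real.exp 3 < x → 1 ≤ g → Good g (1 / 4) φ →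
  ∑ p ∈ (Finset.Icc 1 ⌊x⌋₊).filter Nat.Prime, φ (Real.log x - Real.log p) ≤
    ∑ p ∈ (Finset.Ioc ⌊x⌋₊ n).filter Nat.Prime, φ (Real.log p - Real.log x) + 2 * g * ((H n : ℝ) - G n + n + 1) / n

/-- LB (medium). Lower bound for `Lq`. For small `y` (`y ≤ y0(ε)`): `|Lq φ y| ≤ ∑_{p ≤ e^(y0+1)} log p`, a constant. For large `y`: `n = ⌊e^(2y)⌋₊`, `x = √n ≤ e^y`, `⌊x⌋₊ = ⌊e^y⌋₊` (`m ≤ √n ↔ m² ≤ n ↔ m² ≤ e^(2y)`), `0 ≤ y - log x ≤ 1/n` (`e^(2y) ≤ n + 1`).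
`Lq φ y = ∑_{p > e^y} log p φ(log p - y) - ∑_{p ≤ e^y} log p φ(y - log p) ≥ y (∑_{p > e^y} φ(log p - y) - ∑_{p ≤ e^y} φ(y - log p))` (`log p ≥ y` in the first, `≤ y` in the second sum; `φ ≥ 0`; in the first sum `p ≤ e^(y + 1/4) ≤ n`). Replacing `y` by `log x` changes each `φ` by at most `g/n`, for at most `e^(y+1)`
primes. CM and the hypothesis with `ε/8`: `Lq φ y ≥ - y (2 g (n^(ω/2 + ε/8) + 2) + 2 g e^(y+1)/n) ≥ - K g e^((ω+ε) y)`. Uses: CM. -/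
def LB_stmt : Prop := ∀ ω : ℝ, 0 ≤ ω → Hyp ω → ∀ ε : ℝ, 0 < ε → ∃ K : ℝ, 0 < K ∧ ∀ (g y : ℝ) (φ : ℝ → ℝ), 1 ≤ g → 0 ≤ y →
  Good g (1 / 4) φ → -(K * g * Real.exp ((ω + ε) * y)) ≤ Lq φ y

/-- PT (short/medium). Pointwise estimates, `r = Re s - 1 - δ > 0`. `|(l ∓ u)^k - l^k| ≤ k u (l+u)^(k-1)` and `(l+u)^(k-1)/(k-1)! ≤ r^(-(k-1)) e^(r (l+u))` (`x^j/j! ≤ e^x`), so the left side of the first inequality is at most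
`2 u r r^(-k) e^((r + Re s) u) e^((r - Re s) l)`, `r - Re s = -1-δ`. Second: `l^k/k! ≤ r^(-k) e^(rl)`, `e^(σu) - e^(-σu) ≤ 2σu e^(σu)`. -/
def PT_stmt : Prop := ∀ Lam : ℝ, 2 ≤ Lam → ∃ C : ℝ, 0 < C ∧ ∀ (k : ℕ) (δ l u : ℝ) (s : ℂ), 0 < δ → δ ≤ 1 / 2 → 2 ≤ s.re → s.re ≤ Lam →
  0 ≤ u → u ≤ 1 / 4 → u ≤ l →
  ‖w k s (l - u) - w k s (l + u) - w k s l * (Complex.exp (s * u) - Complex.exp (-s * u))‖ ≤
    C * u * ((s.re - 1 - δ) ^ k)⁻¹ * Real.exp (-(1 + δ) * l) ∧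
  ‖w k s l‖ * (Real.exp (s.re * u) - Real.exp (-s.re * u)) ≤ C * u * ((s.re - 1 - δ) ^ k)⁻¹ * Real.exp (-(1 + δ) * l)

/-- EX (medium/long). Interchange of sum and integral. For a prime `p`, `l = log p ≥ log 2 > 1/4`: `∫_0^∞ w(y) φ(l - y) dy = ∫_0^(1/4) w(l - u) φ(u) du` (`φ = 0` outside `(0, 1/4)`), `∫_0^∞ w(y) φ(y - l) dy = ∫_0^(1/4) w(l + u) φ(u) du`. Interchange:
`MeasureTheory.hasSum_integral_of_summable_integral_norm` (also gives the integrability): `∫ |w| |φ(l-y) - φ(y-l)| ≤ C_k p^(-3/2)` as `|w k s y| ≤ C_k e^(-3y/2)`, `C_k = 2^k`, and `∑ log p p^(-3/2)` converges. (`φ` is continuous, since Lipschitz.) -/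
def EX_stmt : Prop := ∀ (g : ℝ) (φ : ℝ → ℝ) (k : ℕ) (s : ℂ), 1 ≤ g → Good g (1 / 4) φ → 2 ≤ s.re →
  IntegrableOn (fun y : ℝ => w k s y * (Lq φ y : ℂ)) (Set.Ioi 0) ∧
  Summable (fun p : Nat.Primes => (Real.log (p : ℕ) : ℂ) * Jk k s φ (Real.log (p : ℕ))) ∧
  ∫ y in Set.Ioi (0 : ℝ), w k s y * (Lq φ y : ℂ) = ∑' p : Nat.Primes, (Real.log (p : ℕ) : ℂ) * Jk k s φ (Real.log (p : ℕ))

/-- PH (short/medium). The test function, `s' = 2πm/t`. Lipschitz: `ph` is `max 0 (-sin (t u))` times the indicator of `[0, s']`, and `sin (t u) = 0` at both ends. Second: `φ ≤ 1`, `φ = 0` for `u ≥ s'`. Third: with `s = σ + it`, `Im (e^(su) - e^(-su)) = 2 cosh(σu) sin(tu)` and `φ(u) sin(tu) = -φ(u)²`, so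
`|Im Ph| = 2 ∫ φ² cosh(σu) ≥ 2 ∫_0^s' φ² = 2 m π/(2t) = s'/2` (each period: `∫_π^(2π) sin² = π/2`). -/
def PH_stmt : Prop := ∀ (t : ℝ) (m : ℕ), 1 ≤ t → 1 ≤ m → 2 * Real.pi * m / t ≤ 1 / 4 → Good t (1 / 4) (ph t m) ∧
  ∫ u in (0 : ℝ)..(1 / 4), ph t m u * u ≤ (2 * Real.pi * m / t) ^ 2 ∧
  ∀ σ : ℝ, 0 ≤ σ → 2 * Real.pi * m / t / 2 ≤ ‖Ph ((σ : ℂ) + t * I) (ph t m)‖

/-- WK (medium). Main estimate for a test function, `s = σ + it`, `r = σ-1-δ`. Let `A = ∫_0^(1/4) φ(u) u du`, `E = ∑_p log p p^(-1-δ)`. By PT (integrated against `φ`), `|Jk k s φ l - w k s l Ph s φ| ≤ C A r^(-k) e^(-(1+δ) l)`, and for `t = 0` moreover `|Jk k σ φ l| ≤ 2 C A r^(-k) e^(-(1+δ) l)`.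
`w k s (log p) = (log p)^k/k! p^(-s)`, so with EX: `|∫ w k s y Lq φ y dy - fp k s Ph s φ| ≤ C E A r^(-k)` and `∫ |w k s y| Lq φ y dy = ∫ w k σ y Lq φ y dy ≤ 2 C E A r^(-k)`. By hypothesis `|Lq| ≤ Lq + 2 M e^(b y)`, and `∫_0^∞ y^k/k! e^(-(σ-b) y) dy = (σ-b)^(-k-1)`, `σ - b ≥ 1/2`. Uses: PT, EX. -/
def WK_stmt : Prop := ∀ Lam δ : ℝ, 2 ≤ Lam → 0 < δ → δ ≤ 1 / 4 → ∃ C : ℝ, 0 < C ∧ ∀ (g M b σ t : ℝ) (φ : ℝ → ℝ) (k : ℕ), 1 ≤ g → Good g (1 / 4) φ →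
  0 ≤ M → b ≤ 3 / 2 → 2 ≤ σ → σ ≤ Lam → (∀ y : ℝ, 0 ≤ y → -(M * Real.exp (b * y)) ≤ Lq φ y) →
  ‖fp k ((σ : ℂ) + t * I)‖ * ‖Ph ((σ : ℂ) + t * I) φ‖ ≤
    C * ((∫ u in (0 : ℝ)..(1 / 4), φ u * u) * ((σ - 1 - δ) ^ k)⁻¹ + M * ((σ - b) ^ k)⁻¹)

/-- PP (medium). Prime powers. `fp` is the sum over the primes of the terms `wt σ (k+1) n n^(-it)` (`Λ(p) = log p`); the others are at most `(log n)^k/k! Λ(n) n^(-σ) ≤ r^(-k) Λ(n) n^(-1/2-δ)`, `r = σ-1/2-δ` (`PW_le`), and `∑_{n not prime} Λ(n) n^(-1/2-δ)` converges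
(as `PW_F0_summable` in `helper98/EV/PW.lean` with `1/2 + δ` instead of `2/3`). -/
def PP_stmt : Prop := ∀ δ : ℝ, 0 < δ → δ ≤ 1 / 4 → ∃ C : ℝ, 0 < C ∧ ∀ (k : ℕ) (σ t : ℝ), 2 ≤ σ →
  ‖(∑' n : ℕ, (wt σ (k + 1) n : ℂ) * (n : ℂ) ^ (-(t * I))) - fp k ((σ : ℂ) + t * I)‖ ≤ C * ((σ - 1 / 2 - δ) ^ k)⁻¹

/-- AK (short). `ak` as a Dirichlet series: `h57_deriv`, `h57_series` (`helper57/LD/Z0.lean`), with `k + 1` for `k`. -/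
def AK_stmt : Prop := ∀ (k : ℕ) (σ t : ℝ), 1 < σ →
  ‖ak k ((σ : ℂ) + t * I)‖ = ‖∑' n : ℕ, (wt σ (k + 1) n : ℂ) * (n : ℂ) ^ (-(t * I))‖

/-- WL (medium). Window lemma. LB with `ε = δ`: `K`. `m = ⌊t s/(2π)⌋₊ ≥ 1`, `s' = 2πm/t`, `s/2 ≤ s' ≤ s`. WK with `φ = ph t m`, `g = t`, `M = K t`, `b = ω + δ` (`≤ 5/4`), PH: `‖fp‖ s'/2 ≤ C (s'² r^(-k) + K t (σ-ω-δ)^(-k))`, so `‖fp‖ ≤ C' (s r^(-k) + t/s (σ-ω-δ)^(-k))`. Then PP, AK.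
Uses: LB, PH, WK, PP, AK. -/
def WL_stmt : Prop := ∀ ω : ℝ, 0 ≤ ω → ω < 1 → Hyp ω → ∀ δ Lam : ℝ, 0 < δ → δ ≤ 1 / 4 → 2 ≤ Lam → ∃ C : ℝ, 0 < C ∧
  ∀ (k : ℕ) (σ t s : ℝ), 2 ≤ σ → σ ≤ Lam → 1 ≤ t → 2 * Real.pi / t ≤ s → s ≤ 1 / 4 →
  ‖ak k ((σ : ℂ) + t * I)‖ ≤ C * (s * ((σ - 1 - δ) ^ k)⁻¹ + t / s * ((σ - ω - δ) ^ k)⁻¹ + ((σ - 1 / 2 - δ) ^ k)⁻¹)

/-- WN (medium/long; elementary analysis). `L = log T`, `k = a lam L`, `α ≤ a ≤ β`. Let `τ = min 1 ((a (1-ω) - 1)/2)`; then `τ - a(1-θ) ≥ η0` and `a(θ-ω) - 1 - τ ≥ η0` and `a(θ-1/2) ≥ η0`, where `η0 = min ((α(2θ-1-ω) - 1)/2) (1 - β(1-θ)) (α(θ-1/2))`. (If `τ = (a(1-ω)-1)/2 ≤ 1`: both are `(a(2θ-1-ω)-1)/2`. If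
`τ = 1`, `a(1-ω) ≥ 3`: `1 - a(1-θ) ≥ 1 - β(1-θ)`, and `a(θ-ω) - 2 = a(1-ω) - a(1-θ) - 2 ≥ 1 - a(1-θ)`.) And `τ ≥ τ0 = min 1 ((α(1-ω)-1)/2) > 0`. `η = η0/2`. Apply WL with `Lam = θ + 1/10 + lam`, `s = 14 T^(-τ)` (`2π/t ≤ 4π/T ≤ s`; `s ≤ 1/4` for large `T`), `δ` with `β δ ≤ η0/8`.
For `|z| ≤ 2`, `lam ≥ 8`: `lam^k (lam - z)^(-k) = (1 - z/lam)^(-k) ≤ exp(k (z/lam + z²/lam²)) ≤ T^(a z + 4β/lam)`. With `z = 1+δ-θ-v`, `-(θ+v-ω-δ)`, `-(θ+v-1/2-δ)`: the three terms are at most `14 T^(-τ+a(1-θ)-av+aδ+4β/lam)`, `(1/7) T^(1+τ-a(θ-ω)-av+aδ+4β/lam)`, `T^(-a(θ-1/2)-av+aδ+4β/lam)`, each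
`≤ 14 T^(-av-η0+η0/8+4β/lam)`; `4β/lam ≤ η0/8`, and `50 C ≤ T^(η0/4)` for large `T`; `a ≥ α`, `v ≥ 0`. Uses: the conclusion of WL as hypothesis (see the statement). -/
def WN_stmt : Prop := ∀ ω θ α β : ℝ, 0 ≤ ω → ω < 1 → 1 / 2 < θ → θ < 1 → 0 < α → α < β → 1 < α * (2 * θ - 1 - ω) → β * (1 - θ) < 1 →
  (∀ δ Lam : ℝ, 0 < δ → δ ≤ 1 / 4 → 2 ≤ Lam → ∃ C : ℝ, 0 < C ∧
    ∀ (k : ℕ) (σ t s : ℝ), 2 ≤ σ → σ ≤ Lam → 1 ≤ t → 2 * Real.pi / t ≤ s → s ≤ 1 / 4 →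
    ‖ak k ((σ : ℂ) + t * I)‖ ≤ C * (s * ((σ - 1 - δ) ^ k)⁻¹ + t / s * ((σ - ω - δ) ^ k)⁻¹ + ((σ - 1 / 2 - δ) ^ k)⁻¹)) →
  ∃ η : ℝ, 0 < η ∧ Win θ α β η

/-! ## Part 2: the Taylor coefficients and the zeros -/

/-- TB (short). Trivial bound: AK, `(log n)^k/k! ≤ r^(-k) n^r` (`PW_le`), `r = Re s - 1 - δ`; `C = ∑ Λ(n) n^(-1-δ)`. Uses: AK. -/
def TB_stmt : Prop := ∀ δ : ℝ, 0 < δ → ∃ C : ℝ, 0 < C ∧ ∀ (k : ℕ) (s : ℂ), 1 + δ < s.re → ‖ak k s‖ ≤ C * ((s.re - 1 - δ) ^ k)⁻¹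

/-- AC (medium). `coeff_bound` (`k + 1` for `k`) for `riemannZeta` on the ball with centre `c = σ + it` and radius `R = σ - θ - ε ≥ 1/2`: the points have real part `> θ + ε ≥ 1/2` and imaginary part in `(t - Lam, t + Lam)`, so for `t ≥ T0` there are no zeros and not the point 1; `‖ζ z‖ ≤ C ‖z‖` (`zeta_growth`), `‖ζ c‖ ≥ 1/4`
(`zeta_lower`), so `‖ζ z‖ ≤ exp(C' log t) ‖ζ c‖`. `(R^(k+1))⁻¹ ≤ 2 (R^k)⁻¹`. -/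
def AC_stmt : Prop := ∀ θ ε Lam : ℝ, 1 / 2 ≤ θ → θ < 1 → ZF θ → 0 < ε → ε ≤ 1 / 4 → 2 ≤ Lam → ∃ C T0 : ℝ, 0 < C ∧ ∀ (k : ℕ) (σ t : ℝ), 2 ≤ σ → σ ≤ Lam → T0 ≤ t →
  ‖ak k ((σ : ℂ) + t * I)‖ ≤ C * Real.log t * (k + 1) ^ 2 * ((σ - θ - ε) ^ k)⁻¹

/-- TY (short/medium). Taylor series of `logDeriv ζ` about `s + lam` (`Complex.hasSum_taylorSeries_on_ball`); it is holomorphic on the ball with radius `lam + d/2` about `s + lam` for large height (no zeros, not the point 1). -/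
def TY_stmt : Prop := ∀ θ d lam : ℝ, 1 / 2 ≤ θ → θ < 1 → ZF θ → 0 < d → d ≤ 1 → 2 ≤ lam → ∃ T0 : ℝ, ∀ σ t : ℝ, θ + d ≤ σ → σ ≤ 2 → T0 ≤ t →
  HasSum (fun k : ℕ => ak k (((σ : ℂ) + t * I) + lam) * (-(lam : ℂ)) ^ k) (logDeriv riemannZeta ((σ : ℂ) + t * I))

/-- PL (medium). `‖Pt‖` to the left of `θ`. AC with `Lam = lam + 1`, radius `lam - v - ε1`: `‖ak k (s+lam)‖ lam^k ≤ C log t (k+1)² (1 - z/lam)^(-k)`, `z = v + ε1`, and for `k ≤ K = α lam L`, `L = log T`: `(1 - z/lam)^(-k) ≤ exp(K (z/lam + z²/lam²)) = T^(α z + α z²/lam)`. So `‖Pt‖ ≤ C log(2T) (K+1)³ T^(α v + α ε1 + α/lam) ≤ T^(α v + ε)` if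
`α ε1 ≤ ε/4`, `α/lam ≤ ε/4`, `T` large. Uses: AC. -/
def PL_stmt : Prop := ∀ θ α v ε : ℝ, 1 / 2 ≤ θ → θ < 1 → ZF θ → 0 < α → 0 < v → v ≤ 1 / 10 → 0 < ε → ∃ lam0 : ℝ, ∀ lam : ℝ, lam0 ≤ lam → ∃ T0 : ℝ, ∀ T t : ℝ, T0 ≤ T →
  T / 2 ≤ t → t ≤ 2 * T → ‖Pt lam α T (((θ - v : ℝ) : ℂ) + t * I)‖ ≤ T ^ (α * v + ε)

/-- TS (medium; elementary). Tail of the series. `q = lam/(lam + z)`, `0 < z ≤ 1 ≤ lam`: `q^k = exp(-k log(1 + z/lam)) ≤ exp(-k x)`, `x = z/lam - z²/lam² > 0`. With `μ ∈ (0,1)`: `(k+1)² e^(-kx) ≤ C e^(-k(1-μ)x)`, and the sum over `k ≥ K` of `e^(-k(1-μ)x)` is `≤ C' e^(-K(1-μ)x)`; `K ≥ β lam L`: `= T^(-β(1-μ)(z - z²/lam))`.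
With `lam ≥ lam0(β, ε)`, `μ` small this is `≤ T^(-β z + ε)` for large `T` (also absorbs the constant and `log (2T)`). -/
def TS_stmt : Prop := ∀ β z ε : ℝ, 0 < β → 0 < z → z ≤ 1 → 0 < ε → ∃ lam0 : ℝ, 2 ≤ lam0 ∧ ∀ lam C : ℝ, lam0 ≤ lam → 0 < C → ∃ T0 : ℝ, ∀ T : ℝ, T0 ≤ T → ∀ N : ℕ, lam * β * Real.log T ≤ N →
  Summable (fun k : ℕ => C * Real.log (2 * T) * ((k + N : ℕ) + 1 : ℝ) ^ 2 * (lam / (lam + z)) ^ (k + N)) ∧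
  ∑' k : ℕ, C * Real.log (2 * T) * ((k + N : ℕ) + 1 : ℝ) ^ 2 * (lam / (lam + z)) ^ (k + N) ≤ T ^ (-(β * z) + ε)

/-- PR (medium). `logDeriv ζ - Pt` to the right of `θ`: by TY it is the sum of the terms with `k > α lam L`. The terms with `k ≤ β lam L`: Win, at most `β lam L + 1` terms, each `≤ T^(-αv-η) ≤ T^(-βv - η/2)` (`(β-α) v ≤ η/2`). The terms with `k ≥ N := ⌊β lam L⌋₊ + 1`: AC with `ε1 = min (v/2) (ε/(4β))` etc, `σ = θ + v + lam`, and TS with `z = v - ε1`.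
Uses: AC, TY, TS. -/
def PR_stmt : Prop := ∀ θ α β η v ε : ℝ, 1 / 2 ≤ θ → θ < 1 → ZF θ → 0 < α → α < β → 0 < η → Win θ α β η → 0 < v → v ≤ 1 / 10 → (β - α) * v ≤ η / 2 → 0 < ε → ∃ lam0 : ℝ, ∀ lam : ℝ, lam0 ≤ lam → ∃ T0 : ℝ, ∀ T t : ℝ, T0 ≤ T →
  T / 2 ≤ t → t ≤ 2 * T → ‖logDeriv riemannZeta (((θ + v : ℝ) : ℂ) + t * I) - Pt lam α T (((θ + v : ℝ) : ℂ) + t * I)‖ ≤ T ^ (-(β * v) + ε)

/-- PC (short/medium). Crude bound and differentiability of `Pt` for `Re s ≥ 1/2` (`lam ≥ 2`): TB with `δ = 1/4` (`Re s + lam - 5/4 ≥ lam - 3/4 > 0`): `‖ak k (s+lam)‖ lam^k ≤ C (lam/(lam-3/4))^k ≤ C 2^k`, so `‖Pt‖ ≤ 2 C 2^K`, `K = lam α log T`. `ak k` is differentiable at `s + lam` (`Re > 1`: `logDeriv ζ` is analytic there). Uses: TB. -/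
def PC_stmt : Prop := ∀ α lam : ℝ, 0 < α → 2 ≤ lam → ∃ B : ℝ, 0 < B ∧ ∀ (T : ℝ) (s : ℂ), 2 ≤ T → 1 / 2 ≤ s.re →
  DifferentiableAt ℂ (Pt lam α T) s ∧ ‖Pt lam α T s‖ ≤ T ^ B

/-- LL (short). `TC` of project EQ with `δ = min(d/2, 1/4)`: zeros with imaginary part `≥ Im s - 3` have real part `≤ θ + d/4` for large height. (Import `Pool.Agent.helper13.EQ.TC`, `Pool.Agent.helper18.EQ.THR`.) -/
def LL_stmt : Prop := ∀ θ d ε : ℝ, 1 / 2 ≤ θ → ZF θ → 0 < d → 0 < ε → ∃ T0 : ℝ, 1 ≤ T0 ∧ ∀ σ t : ℝ, θ + d ≤ σ → T0 ≤ t →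
  t ^ (-ε) ≤ ‖riemannZeta ((σ : ℂ) + t * I)‖ ∧ ‖riemannZeta ((σ : ℂ) + t * I)‖ ≤ t ^ ε

/-- LT (medium). Three lines theorem with a Gaussian factor: `Complex.HadamardThreeLines` (the version for the strip `a ≤ Re ≤ b`) for `F(s) = f(s) exp((s - s0)²)`, `s0 = σ + i t0`: on `Re s = a`: `|exp((s-s0)²)| = exp((a-σ)² - (t-t0)²) ≤ exp((b-a)²) exp(-(t-t0)²)`; `F` is bounded (Gauss beats the polynomial). -/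
def LT_stmt : Prop := ∀ (f : ℂ → ℂ) (a b Ma Mb t0 σ : ℝ), a < b → 0 < Ma → 0 < Mb → (∀ s : ℂ, a ≤ s.re → s.re ≤ b → DifferentiableAt ℂ f s) →
  (∃ (C : ℝ) (B : ℕ), ∀ s : ℂ, a ≤ s.re → s.re ≤ b → ‖f s‖ ≤ C * (1 + |s.im|) ^ B) →
  (∀ t : ℝ, ‖f ((a : ℂ) + t * I)‖ ≤ Ma * Real.exp ((t - t0) ^ 2)) → (∀ t : ℝ, ‖f ((b : ℂ) + t * I)‖ ≤ Mb * Real.exp ((t - t0) ^ 2)) →
  a ≤ σ → σ ≤ b → ‖f ((σ : ℂ) + t0 * I)‖ ≤ Real.exp ((b - a) ^ 2) * Ma ^ ((b - σ) / (b - a)) * Mb ^ ((σ - a) / (b - a))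

/-- GA (short/medium). For `|t - T| ≥ T/4`: `1 + |t| ≤ 6 |t - T|` for `T ≥ 4`, so with `y = |t-T| ≥ T/4` everything is `≤ (4y)^(B+N) (6y)^B C ≤ e^(y²)` for large `y`. -/
def GA_stmt : Prop := ∀ B N C : ℝ, 0 < B → 0 < N → 0 < C → ∃ T0 : ℝ, ∀ T t : ℝ, T0 ≤ T → T / 4 ≤ |t - T| → C * T ^ B * (1 + |t|) ^ B ≤ T ^ (-N) * Real.exp ((t - T) ^ 2)

/-- LG (medium/long). Growth of `ζ` to the left of `θ` (`t` large, `Re s ≥ 1 - θ`). Choose `d ≤ ε/4` with `θ + d < 1`. LT on the strip `a = 1-θ-d`, `b = θ+d`, `f = riemannZeta`, `Mb = t0^(ε/8)`, `Ma = t0^(θ+d-1/2+ε/4)`: for `|t - t0| ≤ t0/4`: LL on the right line; on the left line the functional equation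
(`completedRiemannZeta_one_sub`, `riemannZeta_def_of_ne_zero`): `‖ζ(1-b+it)‖ = ‖Gammaℝ(b+it)‖ ‖Gammaℝ(1-b+it)⁻¹‖ ‖ζ(b+it)‖ ≤ C (2+|t|)^(b-1/2) t^(ε/16)` (`WS.GAM` with `w = it`; conjugation). For `|t - t0| > t0/4`: polynomial bound (`zeta_poly`, compactness for `|t| ≤ 1`) and GA.
Result: exponent `(b-σ)/(b-a) (b - 1/2 + ε/4) + ε/8` with `b - 1/2 = (b-a)/2`: `≤ (θ-σ)/2 + d/2 + ε/2`. For `σ ≥ θ + d`: LL. Uses: LL, LT, GA (and `hGAM : Pool.Agent.WS.GAM_stmt` imported). -/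
def LG_stmt : Prop := ∀ θ ε : ℝ, 1 / 2 < θ → θ < 1 → ZF θ → 0 < ε → ∃ T0 : ℝ, 1 ≤ T0 ∧ ∀ σ t : ℝ, 1 - θ ≤ σ → T0 ≤ t →
  ‖riemannZeta ((σ : ℂ) + t * I)‖ ≤ t ^ (max (θ - σ) 0 / 2 + ε)

/-- LD (short/medium). Cauchy's estimate (`Complex.norm_deriv_le_of_forall_mem_sphere_norm_le`) on the circle of radius `r = min (ε/2) ((2θ-1)/2)` about the point, with LG for `ε/4`. Uses: LG. -/
def LD_stmt : Prop := ∀ θ ε : ℝ, 1 / 2 < θ → θ < 1 → ZF θ → 0 < ε → ∃ T0 : ℝ, 1 ≤ T0 ∧ ∀ σ t : ℝ, 1 / 2 ≤ σ → T0 ≤ t →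
  ‖deriv riemannZeta ((σ : ℂ) + t * I)‖ ≤ t ^ (max (θ - σ) 0 / 2 + ε)

/-- HS (medium). `hh` is small near the line `θ`. `f = hh lam α T`, strip `[θ-v, θ+v] ⊂ [1/2, 1)`. Left line, `|t - T0'| ≤ T0'/4`, where `T0' ∈ [T-1, T+1]` is the height of the point: `‖hh‖ ≤ ‖ζ'‖ + ‖Pt‖ ‖ζ‖ ≤ T^((1/2+α)v + ε/2)` (LG, LD, PL). Right line: `hh = ζ (logDeriv ζ - Pt)` (`ζ ≠ 0` there), `≤ T^(-βv + ε/2)` (LL, PR).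
Elsewhere GA with the crude bound `‖hh‖ ≤ C (1+|t|)^3 T^B` (PC; `zeta_growth` or `zeta_poly`, `ζ'` by Cauchy or compactness for `|t| ≤ 2`; the strip does not contain 1). LT: exponent `((1/2+α) v (v-u) - β v (v+u))/(2v) + ε/2`. Uses: LG, LD, LL, PL, PR, PC, LT, GA. -/
def HS_stmt : Prop := ∀ θ α β η v ε : ℝ, 1 / 2 < θ → θ < 1 → ZF θ → 0 < α → α < β → 0 < η → Win θ α β η → 0 < v → v ≤ 1 / 10 → v ≤ θ - 1 / 2 → θ + v < 1 → (β - α) * v ≤ η / 2 → 0 < ε →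
  ∃ lam T0 : ℝ, 2 ≤ lam ∧ ∀ (T u t : ℝ), T0 ≤ T → |u| ≤ v → |t - T| ≤ 1 →
  ‖hh lam α T (((θ + u : ℝ) : ℂ) + t * I)‖ ≤ T ^ (((1 / 2 + α) * (v - u) - β * (v + u)) / 2 + ε)

/-- MR (medium). Choice of the radius (compare `helper53_radius`, which has another scaling): average of `∑ m_ρ log|r - a_ρ|` over `r ∈ [2R, 3R]`; for every real `a ∈ [0, 4R]`: `(1/R) ∫_(2R)^(3R) log(|r - a|/R) dr ≥ -C` (substitute `r = R x`; `∫ |log|x|| ` over an interval of length 1 is bounded). -/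
def MR_stmt : Prop := ∃ C : ℝ, 0 < C ∧ ∀ (R : ℝ) (S : Finset ℂ) (m : ℂ → ℕ) (a : ℂ → ℝ), 0 < R → (∀ ρ ∈ S, 0 ≤ a ρ ∧ a ρ ≤ 4 * R) →
  ∃ r : ℝ, 2 * R ≤ r ∧ r ≤ 3 * R ∧ Real.exp (-(C * ((∑ ρ ∈ S, m ρ : ℕ) : ℝ))) ≤ ∏ ρ ∈ S, (|r - a ρ| / R) ^ m ρ

/-- MM (medium). Minimum modulus. `helper53_g` with the radii `4R < 5R`: `f = ∏ (z-ρ)^m g` with `N = ∑ m ≤ B/log(5/4)`, `‖g z‖ ≤ e^(C B) ‖g c‖` on `ball c 4R`; `helper53_low` (radii `3R < 4R`): `‖g z‖ ≥ e^(-C B) ‖g c‖` for `‖z - c‖ ≤ 3R`. MR with `a ρ = ‖ρ - c‖`: for `‖z - c‖ = r`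
`‖z - ρ‖ ≥ |r - ‖ρ-c‖|`, and `‖c - ρ‖ ≤ 4R`, so `∏ ‖z-ρ‖^m/∏ ‖c-ρ‖^m ≥ 4^(-N) ∏ (|r - a|/R)^m ≥ e^(-C B)`. Uses: MR. -/
def MM_stmt : Prop := ∃ C : ℝ, 0 < C ∧ ∀ (f : ℂ → ℂ) (c : ℂ) (R B : ℝ), 0 < R → 0 < B → AnalyticOnNhd ℂ f (closedBall c (5 * R)) → f c ≠ 0 →
  (∀ z ∈ closedBall c (5 * R), ‖f z‖ ≤ Real.exp B * ‖f c‖) →
  ∃ r : ℝ, 2 * R ≤ r ∧ r ≤ 3 * R ∧ ∀ z : ℂ, ‖z - c‖ = r → Real.exp (-(C * B)) * ‖f c‖ ≤ ‖f z‖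

/-- FN (medium). `Δ = β - α - 1/2 > 0`. Choose `v > 0` with `v ≤ 1/10, θ - 1/2, (1-θ)/2` and `(β-α) v ≤ η/2`; then `R` with `4R ≤ v`, `R ≤ 1/10` and `(1/2+α+β) (3R)/2 + C(2R + 3ε) + 3ε ≤ Δv/8` where `C` is the constant of MM and `ε = R`. `lam` from HS. CLAIM: no zero `ρ` with `|Re ρ - θ| ≤ R/2`, `Im ρ = T ≥ T0`; with `ZF θ` for `ε = R/2` this gives
`Re ρ ≤ θ - R/2` for large height, so `ZF (θ - R/2)`. Proof: `c = θ + R + iT`. HS: `‖hh‖ ≤ T^(-Δv/2 + (1/2+α+β) 3R/2 + ε)` on `closedBall c (3R)` (`u ≥ -2R`; `((1/2+α)(v-u) - β(v+u))/2 = (-Δv - (1/2+α+β)u)/2`). LL (`d = R`), LG: `‖ζ c‖ ≥ T^(-ε)`, `‖ζ z‖ ≤ T^(2R+2ε)` on `closedBall c (5R)`.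
MM with `B = (2R+3ε) log T`: `r`, `‖ζ‖ ≥ T^(-C(2R+3ε)-ε)` on the circle. `EQ.ARG` for `riemannZeta` (`ρ ∈ ball c r`: `‖ρ-c‖ ≤ 3R/2 < 2R`): `∮ ζ'/ζ = 2πi m`, `m ≥ 1`; `∮ Pt = 0` (PC: `Pt` is differentiable on the disc); `ζ'/ζ - Pt = hh/ζ` on the circle: `2π ≤ 2πr T^(-Δv/4) < 2π`. Uses: HS, LG, LL, MM, PC (and `hARG : Pool.Agent.EQ.ARG_stmt` imported). -/
def FN_stmt : Prop := ∀ θ α β η : ℝ, 1 / 2 < θ → θ < 1 → 0 < α → 1 / 2 < β - α → 0 < η → ZF θ → Win θ α β η → ∃ ε : ℝ, 0 < ε ∧ ZF (θ - ε)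

/-! ## Part 3: the theorem -/

/-- the bound for the real parts, `(ω - 3 + √(33 + 2ω + ω²))/4` -/
noncomputable def Th (ω : ℝ) : ℝ := (ω - 3 + Real.sqrt (33 + 2 * ω + ω ^ 2)) / 4

/-- TH (short). `q(θ) = 2θ² + (3-ω)θ - 3 - ω` has the positive root `Th ω`, so `q(θ) > 0` for `θ > Th ω`. `q((1+ω)/2) = ω - 1 < 0`, so `2θ - 1 - ω > 0` (`q` increases on `θ ≥ 0`); `q > 0` means `1/(1-θ) - 1/(2θ-1-ω) > 1/2`. Choose `α` slightly above `1/(2θ-1-ω)` and `β` slightly below `1/(1-θ)`.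
Also `Th ω > 1/2` (`q(1/2) < 0`) . -/
def TH_stmt : Prop := ∀ ω θ : ℝ, 0 ≤ ω → ω < 1 → Th ω < θ → θ < 1 → 1 / 2 < θ ∧ ∃ α β : ℝ, 0 < α ∧ 1 / 2 < β - α ∧ 1 < α * (2 * θ - 1 - ω) ∧ β * (1 - θ) < 1

/-- SI (short/medium). Infimum argument. `A = {θ | 1/2 ≤ θ ∧ ZF θ}` is not empty (`max (1/2) θ1`), bounded below; `θ0 = sInf A` satisfies `ZF θ0` (`θ' ∈ A`, `θ' < θ0 + ε/2`). If `θ0 > b`, the hypothesis gives `ε`, `ZF (θ0 - ε)`; as `θ0 > b ≥ 1/2`, `ZF (max (θ0 - ε) (1/2))` contradicts the infimum. So `θ0 ≤ b`; `ZF θ0` with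
`ε = (σ-b)/2`: `T0` such that zeros with `Im ≥ T0` have `Re < σ`; also for `Im ≤ -T0` (`riemannZeta_conj`). So the zeros with `Re ≥ σ` lie in a bounded set (`Re ≤ 1`: `riemannZeta_ne_zero_of_one_le_re`): `zeros_finite`. -/
def SI_stmt : Prop := ∀ b : ℝ, 1 / 2 ≤ b → (∃ θ : ℝ, θ < 1 ∧ ∀ s : ℂ, θ < s.re → riemannZeta s ≠ 0) → (∀ θ : ℝ, b < θ → θ < 1 → ZF θ → ∃ ε : ℝ, 0 < ε ∧ ZF (θ - ε)) →
  ∀ σ : ℝ, b < σ → {ρ : ℂ | riemannZeta ρ = 0 ∧ σ ≤ ρ.re}.Finite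

/-- HP (short). `Hyp ω`, `ω < 1`, gives `PS` of project EV with `c = (1-ω)/4`: `1 + ω/2 + ε = 3/2 - c` for `ε = (1-ω)/4`. And the conjecture gives `Hyp 0`. -/
def HP_stmt : Prop := (∀ ω : ℝ, ω < 1 → Hyp ω → Pool.Agent.EV.PS) ∧
  ((∃ o : ℕ → ℝ, o =o[atTop] (1 : ℕ → ℝ) ∧ ∀ᶠ n : ℕ in atTop, (G n : ℝ) > (H n : ℝ) - (n : ℝ) ^ (1 + o n)) → Hyp 0)

/-- The final theorem. -/
def MAIN_stmt : Prop := ∀ ω : ℝ, 0 ≤ ω → ω < 1 → Hyp ω → ∀ σ : ℝ, Th ω < σ → {ρ : ℂ | riemannZeta ρ = 0 ∧ σ ≤ ρ.re}.Finite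

theorem MAIN (hWL : WL_stmt) (hWN : WN_stmt) (hFN : FN_stmt) (hTH : TH_stmt) (hSI : SI_stmt) (hHP : HP_stmt)
    (hQ : Pool.Agent.EV.MAIN_stmt) : MAIN_stmt := by
  intro ω h0 h1 hω σ hσ
  have hQRH := hQ.1.1 (hHP.1 ω h1 hω)
  have hkey : ∀ θ : ℝ, Th ω < θ → θ < 1 → ZF θ → ∃ ε : ℝ, 0 < ε ∧ ZF (θ - ε) := by
    intro θ h2 h3 h4
    obtain ⟨h5, α, β, h6, h7, h8, h9⟩ := hTH ω θ h0 h1 h2 h3
    obtain ⟨η, h10, h11⟩ := hWN ω θ α β h0 h1 h5 h3 h6 (by linarith) h8 h9 (hWL ω h0 h1 hω)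
    exact hFN θ α β η h5 h3 h6 h7 h10 h4 h11
  refine hSI (max (Th ω) (1 / 2)) (le_max_right _ _) hQRH (fun θ h2 h3 h4 => hkey θ ((le_max_left _ _).trans_lt h2) h3 h4) σ ?_
  rcases lt_or_ge (Th ω) 1 with h2 | h2
  · refine max_lt hσ ?_
    by_contra h4
    have h5 : Th ω < 1 / 2 := by linarith
    have := (hTH ω (1 / 2) h0 h1 h5 (by norm_num)).1
    linarith
  · refine max_lt hσ ?_
    linarith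

end Pool.Agent.QZ
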